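import Pool.Agent.VMX.StmtsF

/-!
# VMX squad, row RAY (the eigenvectors of one eigenvalue form a ray)
-/

set_option autoImplicit false

open Matrix Filter Topology

namespace Pool.Agent.VMX.H53

open Pool.Agent.PFS Pool.Agent.PFJ Pool.Agent.NBT Pool.Agent.VMX

/-- the eigenvectors are permuted by the centraliser -/
theorem eg_cen {n : ℕ} {C : Set (V n)} {Γ : Subgroup (GL (Fin n) ℝ)} (hC : CC C Γ)
    {g δ : GL (Fin n) ℝ} (hδ : δ ∈ Γ) (hcom : g * δ = δ * g) {s lam r : ℝ} (hr : 0 < r) {v : V n}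
    (hv : Eg C Γ g s lam v) : Eg C Γ g s lam (r • act δ v) := by
  refine ⟨hC.hul.lamSmul _ (hC.hul.lamAct v hv.1 δ hδ) r hr, ?_⟩
  have e : act g (act δ v) = act δ (act g v) := by
    rw [← CC.act_mul, ← CC.act_mul, hcom]
  rw [CC.act_smul, e, smul_comm s r, ← CC.act_smul δ s, hv.2, CC.act_smul, smul_comm]

/-- every eigenvector is comparable with `T p` -/
theorem ray_key {n k : ℕ} {C : Set (V n)} {Γ : Subgroup (GL (Fin n) ℝ)} (hC : CC C Γ)
    {g : GL (Fin n) ℝ} {w : Fin (k + 1) → V n} {i : Fin (k + 1)} {s lam : ℝ} {p : V n}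
    {γ : ℕ → GL (Fin n) ℝ} {t : ℕ → ℝ} {T : V n →ₗ[ℝ] V n} (hM : MT C Γ g γ t T)
    (hp : Eg C Γ g s lam p) (hn : Nv C (1 / 16) w i p) (hT0 : T p ≠ 0)
    (hT2 : (2 : ℝ) • T p - T (∑ m, w m) ∈ closure C)
    (hall : ∀ v, Eg C Γ g s lam v → ∃ c : ℝ, 0 < c ∧ Nv C (1 / 16) w i (c • v))
    {v : V n} (hv : Eg C Γ g s lam v) :
    ∃ c : ℝ, 0 < c ∧ c • v - (3 / 4 : ℝ) • T p ∈ closure C ∧
      (5 / 4 : ℝ) • T p - c • v ∈ closure C := by
  have hP : PCone C := hC.toPCone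
  have hcom : ∀ m, g * (γ m)⁻¹ = (γ m)⁻¹ * g := by
    intro m
    have h := hM.com m
    rw [eq_inv_mul_iff_mul_eq, ← mul_assoc, h, mul_assoc, mul_inv_cancel, mul_one]
  have hvm : ∀ m, Eg C Γ g s lam ((t m)⁻¹ • act (γ m)⁻¹ v) := fun m =>
    eg_cen hC (inv_mem (hM.mem m)) (hcom m) (inv_pos.2 (hM.pos m)) hv
  have hch : ∀ m, ∃ c : ℝ, 0 < c ∧ Nv C (1 / 16) w i (c • ((t m)⁻¹ • act (γ m)⁻¹ v)) :=
    fun m => hall _ (hvm m)
  choose c hc0 hcN using hch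
  have hGcl : ∀ m, ∀ x ∈ closure C, t m • act (γ m) x ∈ closure C := fun m x hx =>
    hP.cl_smul (hC.act_cl (hM.mem m) hx) (hM.pos m).le
  have hGv : ∀ m, t m • act (γ m) (c m • ((t m)⁻¹ • act (γ m)⁻¹ v)) = c m • v := by
    intro m
    rw [CC.act_smul, CC.act_smul, CC.act_act_inv, smul_smul, smul_smul]
    congr 1
    have := (hM.pos m).ne'
    field_simp
  have hA : ∀ m, (1 / 8 : ℝ) • (t m • act (γ m) (∑ j, w j))
      - (c m • v - t m • act (γ m) p) ∈ closure C := by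
    intro m
    have h1 := hP.cl_add (hcN m).1 hn.2
    have h2 := hGcl m _ h1
    have e : t m • act (γ m) ((1 / 16 : ℝ) • (∑ j, w j)
          - (c m • ((t m)⁻¹ • act (γ m)⁻¹ v) - w i)
        + ((1 / 16 : ℝ) • (∑ j, w j) + (p - w i)))
        = (1 / 8 : ℝ) • (t m • act (γ m) (∑ j, w j)) - (c m • v - t m • act (γ m) p) := by
      rw [← hGv m, CC.act_add, CC.act_sub, CC.act_add, CC.act_sub, CC.act_sub,
        CC.act_smul (γ m) (1 / 16)]
      module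
    rw [← e]
    exact h2
  have hB : ∀ m, (1 / 8 : ℝ) • (t m • act (γ m) (∑ j, w j))
      + (c m • v - t m • act (γ m) p) ∈ closure C := by
    intro m
    have h1 := hP.cl_add (hcN m).2 hn.1
    have h2 := hGcl m _ h1
    have e : t m • act (γ m) ((1 / 16 : ℝ) • (∑ j, w j)
          + (c m • ((t m)⁻¹ • act (γ m)⁻¹ v) - w i)
        + ((1 / 16 : ℝ) • (∑ j, w j) - (p - w i)))
        = (1 / 8 : ℝ) • (t m • act (γ m) (∑ j, w j)) + (c m • v - t m • act (γ m) p) := by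
      rw [← hGv m, CC.act_add, CC.act_add, CC.act_sub, CC.act_sub, CC.act_sub,
        CC.act_smul (γ m) (1 / 16)]
      module
    rw [← e]
    exact h2
  -- the numbers `c m` are bounded
  obtain ⟨B, hB0, hBn⟩ := hP.normal
  have hvcl : v ∈ closure C := hC.hul.lamCl v hv.1
  have hv0 : v ≠ 0 := hC.hul.lamNe v hv.1
  have hvn : 0 < ‖v‖ := norm_pos_iff.2 hv0
  have hlim1 : Tendsto (fun m => (1 / 8 : ℝ) • (t m • act (γ m) (∑ j, w j))
      + t m • act (γ m) p) atTop (𝓝 ((1 / 8 : ℝ) • T (∑ j, w j) + T p)) :=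
    ((hM.lim _).const_smul _).add (hM.lim p)
  obtain ⟨R, hR⟩ := hlim1.norm.bddAbove_range
  have hcb : ∀ m, c m ∈ Set.Icc (0 : ℝ) (B * R / ‖v‖) := by
    intro m
    refine ⟨(hc0 m).le, ?_⟩
    have h1 : ‖c m • v‖ ≤ B * ‖(1 / 8 : ℝ) • (t m • act (γ m) (∑ j, w j))
        + t m • act (γ m) p‖ := by
      refine hBn _ _ (hP.cl_smul hvcl (hc0 m).le) ?_
      have e : (1 / 8 : ℝ) • (t m • act (γ m) (∑ j, w j)) + t m • act (γ m) p - c m • v
          = (1 / 8 : ℝ) • (t m • act (γ m) (∑ j, w j)) - (c m • v - t m • act (γ m) p) := by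
        abel
      rw [e]
      exact hA m
    have h2 : ‖(1 / 8 : ℝ) • (t m • act (γ m) (∑ j, w j)) + t m • act (γ m) p‖ ≤ R :=
      hR ⟨m, rfl⟩
    rw [norm_smul, Real.norm_of_nonneg (hc0 m).le] at h1
    rw [le_div_iff₀ hvn]
    exact h1.trans (mul_le_mul_of_nonneg_left h2 hB0.le)
  obtain ⟨c', hc', φ, hφ, hlc⟩ := isCompact_Icc.tendsto_subseq hcb
  have hA' : (1 / 8 : ℝ) • T (∑ j, w j) - (c' • v - T p) ∈ closure C := by
    have hl : Tendsto (fun m => (1 / 8 : ℝ) • (t (φ m) • act (γ (φ m)) (∑ j, w j))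
        - (c (φ m) • v - t (φ m) • act (γ (φ m)) p)) atTop
        (𝓝 ((1 / 8 : ℝ) • T (∑ j, w j) - (c' • v - T p))) :=
      (((hM.lim _).comp hφ.tendsto_atTop).const_smul _).sub
        ((hlc.smul_const v).sub ((hM.lim p).comp hφ.tendsto_atTop))
    exact isClosed_closure.mem_of_tendsto hl (Eventually.of_forall fun m => hA (φ m))
  have hB' : (1 / 8 : ℝ) • T (∑ j, w j) + (c' • v - T p) ∈ closure C := by
    have hl : Tendsto (fun m => (1 / 8 : ℝ) • (t (φ m) • act (γ (φ m)) (∑ j, w j))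
        + (c (φ m) • v - t (φ m) • act (γ (φ m)) p)) atTop
        (𝓝 ((1 / 8 : ℝ) • T (∑ j, w j) + (c' • v - T p))) :=
      (((hM.lim _).comp hφ.tendsto_atTop).const_smul _).add
        ((hlc.smul_const v).sub ((hM.lim p).comp hφ.tendsto_atTop))
    exact isClosed_closure.mem_of_tendsto hl (Eventually.of_forall fun m => hB (φ m))
  have h8 : (1 / 8 : ℝ) • ((2 : ℝ) • T p - T (∑ m, w m)) ∈ closure C :=
    hP.cl_smul hT2 (by norm_num)
  have hlow : c' • v - (3 / 4 : ℝ) • T p ∈ closure C := by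
    have e : c' • v - (3 / 4 : ℝ) • T p = ((1 / 8 : ℝ) • T (∑ j, w j) + (c' • v - T p))
        + (1 / 8 : ℝ) • ((2 : ℝ) • T p - T (∑ m, w m)) := by
      module
    rw [e]
    exact hP.cl_add hB' h8
  have hupp : (5 / 4 : ℝ) • T p - c' • v ∈ closure C := by
    have e : (5 / 4 : ℝ) • T p - c' • v = ((1 / 8 : ℝ) • T (∑ j, w j) - (c' • v - T p))
        + (1 / 8 : ℝ) • ((2 : ℝ) • T p - T (∑ m, w m)) := by
      module
    rw [e]
    exact hP.cl_add hA' h8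
  refine ⟨c', lt_of_le_of_ne hc'.1 ?_, hlow, hupp⟩
  intro h0
  rw [← h0, zero_smul] at hlow
  have hz : T p ∈ closure C :=
    isClosed_closure.mem_of_tendsto (hM.lim p)
      (Eventually.of_forall fun m => hGcl m p (hC.hul.lamCl p hp.1))
  have hz' : -T p ∈ closure C := by
    have e : -T p = (4 / 3 : ℝ) • (0 - (3 / 4 : ℝ) • T p) := by module
    rw [e]
    exact hP.cl_smul hlow (by norm_num)
  exact hT0 (hP.salient _ hz hz')

theorem ray : RayStmt := by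
  intro n k C Γ hC g hg w i s lam p γ t T hs hw hM hp hn hT0 hT2 hall v hv
  have hP : PCone C := hC.toPCone
  have hvcl : v ∈ closure C := hC.hul.lamCl v hv.1
  have hpcl : p ∈ closure C := hC.hul.lamCl p hp.1
  have hv0 : v ≠ 0 := hC.hul.lamNe v hv.1
  have hp0 : p ≠ 0 := hC.hul.lamNe p hp.1
  have hpn : 0 < ‖p‖ := norm_pos_iff.2 hp0
  obtain ⟨B, hB0, hBn⟩ := hP.normal
  have hScl : IsClosed {r : ℝ | 0 ≤ r ∧ v - r • p ∈ closure C} := by
    have h1 : IsClosed {r : ℝ | 0 ≤ r} := isClosed_Ici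
    have h2 : IsClosed {r : ℝ | v - r • p ∈ closure C} :=
      isClosed_closure.preimage (continuous_const.sub (continuous_id.smul continuous_const))
    exact h1.inter h2
  have hSb : {r : ℝ | 0 ≤ r ∧ v - r • p ∈ closure C} ⊆ Set.Icc 0 (B * ‖v‖ / ‖p‖) := by
    rintro r ⟨hr0, hr⟩
    refine ⟨hr0, ?_⟩
    have h1 := hBn (r • p) v (hP.cl_smul hpcl hr0) hr
    rw [norm_smul, Real.norm_of_nonneg hr0] at h1
    rw [le_div_iff₀ hpn]
    exact h1
  have hSc : IsCompact {r : ℝ | 0 ≤ r ∧ v - r • p ∈ closure C} :=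
    isCompact_Icc.of_isClosed_subset hScl hSb
  have hS0 : (0 : ℝ) ∈ {r : ℝ | 0 ≤ r ∧ v - r • p ∈ closure C} := by
    refine ⟨le_rfl, ?_⟩
    rw [zero_smul, sub_zero]
    exact hvcl
  obtain ⟨τ, ⟨hτ0, hτ⟩, hmax⟩ := hSc.exists_isGreatest ⟨0, hS0⟩
  by_cases h0 : v - τ • p = 0
  · have hvτ : v = τ • p := sub_eq_zero.1 h0
    refine ⟨τ, lt_of_le_of_ne hτ0 ?_, hvτ⟩
    intro h
    rw [← h, zero_smul] at hvτ
    exact hv0 hvτ
  · exfalso
    have hvE : Eg C Γ g s lam (v - τ • p) := by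
      refine ⟨Pool.Agent.PFS.H37.flmF n C Γ hC v hv.1 (v - τ • p) hτ h0 ?_, ?_⟩
      · have e : v - (v - τ • p) = τ • p := by abel
        rw [e]
        exact hP.cl_smul hpcl hτ0
      · rw [CC.act_sub, CC.act_smul, smul_sub, hv.2, smul_comm s τ, hp.2, smul_sub,
          smul_comm lam τ]
    obtain ⟨c1, hc1, hlo, -⟩ := ray_key hC hM hp hn hT0 hT2 hall hvE
    obtain ⟨c2, hc2, -, hup⟩ := ray_key hC hM hp hn hT0 hT2 hall hp
    have h1 : (c1 • (v - τ • p) - (3 / 4 : ℝ) • T p) + (3 / 5 : ℝ) • ((5 / 4 : ℝ) • T p - c2 • p)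
        ∈ closure C := hP.cl_add hlo (hP.cl_smul hup (by norm_num))
    have h2 : c1⁻¹ • ((c1 • (v - τ • p) - (3 / 4 : ℝ) • T p)
        + (3 / 5 : ℝ) • ((5 / 4 : ℝ) • T p - c2 • p)) ∈ closure C :=
      hP.cl_smul h1 (inv_pos.2 hc1).le
    have e : c1⁻¹ • ((c1 • (v - τ • p) - (3 / 4 : ℝ) • T p)
        + (3 / 5 : ℝ) • ((5 / 4 : ℝ) • T p - c2 • p))
        = v - (τ + c1⁻¹ * ((3 / 5) * c2)) • p := by
      have e1 : (c1 • (v - τ • p) - (3 / 4 : ℝ) • T p)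
        + (3 / 5 : ℝ) • ((5 / 4 : ℝ) • T p - c2 • p)
          = c1 • (v - τ • p) - ((3 / 5) * c2) • p := by module
      rw [e1, smul_sub, smul_smul, inv_mul_cancel₀ hc1.ne', one_smul, smul_smul]
      module
    rw [e] at h2
    have hpos : 0 < c1⁻¹ * ((3 / 5) * c2) := by positivity
    have h3 := hmax ⟨(by linarith : (0 : ℝ) ≤ τ + c1⁻¹ * ((3 / 5) * c2)), h2⟩
    linarith

end Pool.Agent.VMX.H53
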