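import Pool.Agent.VMX.StmtsC

/-!
# VMX squad, row TRF (the second case for every number of vertices)
-/

set_option autoImplicit false

open Matrix Filter Topology

namespace Pool.Agent.VMX.H53

open Pool.Agent.PFS Pool.Agent.PFJ Pool.Agent.NBT Pool.Agent.VMX

/-- a vector below a vector of the span of the open face of `f` is in this span -/
theorem mem_of_le {n K : ℕ} {C : Set (V n)} (hP : PCone C) {w : Fin K → V n}
    (hw : ∀ i, w i ∈ closure C) {I : Finset (Fin K)} {c y : V n} (hc : c ∈ BI C w I)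
    (hcc : c ∈ closure C) (hy : y ∈ closure C) {M : ℝ} (hM : M • c - y ∈ closure C) :
    y ∈ BI C w I := by
  have hf : fS w I ∈ closure C := fS_cl hP hw I
  obtain ⟨hu, hl, -⟩ := fcs n C hP (fS w I) hf
  obtain ⟨M1, hM1, h1, -⟩ := unt_two hP hu hc
  have h2 : (max M 0) • c - y ∈ closure C := by
    have e : (max M 0) • c - y = (M • c - y) + (max M 0 - M) • c := by
      rw [sub_smul]; abel
    rw [e]
    exact hP.cl_add hM (hP.cl_smul hcc (sub_nonneg.2 (le_max_left M 0)))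
  refine hl y hy (max M 0 * M1) ?_
  have e : (max M 0 * M1) • fS w I - y
      = (max M 0) • (M1 • fS w I - c) + ((max M 0) • c - y) := by
    rw [smul_sub, smul_smul]; abel
  rw [e]
  exact hP.cl_add (hP.cl_smul h1 (le_max_right M 0)) h2

/-- eigenvectors with positive eigenvalues: the sums are moved by a bounded amount -/
theorem eig_bd {n : ℕ} {C : Set (V n)} (hP : PCone C) (g : GL (Fin n) ℝ)
    (W : Fin (2 + 1) → V n) (l : Fin (2 + 1) → ℝ) (hW : ∀ i, W i ∈ closure C)
    (hl : ∀ i, 0 < l i) (he : ∀ i, act g (W i) = l i • W i) :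
    ∃ M : ℝ, ∀ r : Fin (2 + 1) → ℝ, (∀ i, 0 < r i) →
      M • (∑ i, r i • W i) - act g (∑ i, r i • W i) ∈ closure C ∧
      M • act g (∑ i, r i • W i) - ∑ i, r i • W i ∈ closure C := by
  have hM1 : ∀ i, l i ≤ ∑ j, (l j + (l j)⁻¹) := by
    intro i
    have h1 : l i + (l i)⁻¹ ≤ ∑ j, (l j + (l j)⁻¹) :=
      Finset.single_le_sum (f := fun j => l j + (l j)⁻¹)
        (fun j _ => (add_pos (hl j) (inv_pos.2 (hl j))).le) (Finset.mem_univ i)
    have h2 : 0 < (l i)⁻¹ := inv_pos.2 (hl i)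
    linarith
  have hM2 : ∀ i, (l i)⁻¹ ≤ ∑ j, (l j + (l j)⁻¹) := by
    intro i
    have h1 : l i + (l i)⁻¹ ≤ ∑ j, (l j + (l j)⁻¹) :=
      Finset.single_le_sum (f := fun j => l j + (l j)⁻¹)
        (fun j _ => (add_pos (hl j) (inv_pos.2 (hl j))).le) (Finset.mem_univ i)
    have h2 : 0 < l i := hl i
    linarith
  refine ⟨∑ j, (l j + (l j)⁻¹), fun r hr => ?_⟩
  generalize (∑ j, (l j + (l j)⁻¹)) = M at hM1 hM2
  have ha : act g (∑ i, r i • W i) = ∑ i, (r i * l i) • W i := by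
    rw [CC.act_sum]
    refine Finset.sum_congr rfl fun i _ => ?_
    rw [CC.act_smul, he i, smul_smul]
  constructor
  · have e : M • (∑ i, r i • W i) - act g (∑ i, r i • W i)
        = ∑ i, (r i * (M - l i)) • W i := by
      rw [ha, Finset.smul_sum, ← Finset.sum_sub_distrib]
      refine Finset.sum_congr rfl fun i _ => ?_
      rw [smul_smul, ← sub_smul]
      ring_nf
    rw [e]
    refine hP.cl_sum fun i _ => hP.cl_smul (hW i) ?_
    exact mul_nonneg (hr i).le (sub_nonneg.2 (hM1 i))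
  · have e : M • act g (∑ i, r i • W i) - ∑ i, r i • W i
        = ∑ i, (r i * (M * l i - 1)) • W i := by
      rw [ha, Finset.smul_sum, ← Finset.sum_sub_distrib]
      refine Finset.sum_congr rfl fun i _ => ?_
      rw [smul_smul, ← sub_smul]
      ring_nf
    rw [e]
    refine hP.cl_sum fun i _ => hP.cl_smul (hW i) ?_
    refine mul_nonneg (hr i).le ?_
    have h1 : (l i)⁻¹ * l i ≤ M * l i := mul_le_mul_of_nonneg_right (hM2 i) (hl i).le
    rw [inv_mul_cancel₀ (hl i).ne'] at h1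
    linarith

theorem trf (h1 : TriStmt) (h2 : TrcStmt) (h3 : AtxStmt) (h4 : SbgStmt) (h5 : FixStmt) :
    TrfStmt := by
  intro n k C Γ hK w hw g hg s la lc lb c b ψa ψc ψb hs hlb hbc hca hinv ha hc hb hcL hbL hbB
    hab hacb
  have hC : CC C Γ := hK.toCC
  have hP : PCone C := hC.toPCone
  have hlc : 0 < lc := lt_trans hlb hbc
  have hla : 0 < la := lt_trans hlc hca
  have ea : s • act g (w 0) = la • w 0 := ha.eig
  have ec : s • act g c = lc • c := hc.eig
  have eb : s • act g b = lb • b := by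
    have e0 : s⁻¹ • act g⁻¹ b = lb⁻¹ • b := hb.eig
    have e1 : act g (s⁻¹ • act g⁻¹ b) = act g (lb⁻¹ • b) := by rw [e0]
    rw [CC.act_smul, CC.act_act_inv, CC.act_smul] at e1
    have e2 : (s * lb) • (s⁻¹ • b) = (s * lb) • (lb⁻¹ • act g b) := by rw [e1]
    rw [smul_smul, smul_smul] at e2
    have e3 : s * lb * s⁻¹ = lb := by field_simp
    have e4 : s * lb * lb⁻¹ = s := by field_simp
    rw [e3, e4] at e2
    exact e2.symm
  have hT : IsPES C Γ ![w 0, c, b] :=
    h1 n k C Γ hC w hw g hg s la lc lb c b hs hlb hbc hca ea ec eb hcL hbL hc.mem hbB hab hacb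
  have hwc : ∀ i, w i ∈ closure C := fun i => hw.1.cl i
  have hx0 : Ext C (w 0) := exv n C Γ hC (k + 1) (by have := hK.three; omega) hK.maxc w hw 0
  have hxc : Ext C c := h3 n C Γ hC g hg s lc (BI C w {0}ᶜ) c ψc hs hc
    (fun y hy M hM => mem_of_le hP hwc hc.mem hc.cl hy hM)
  have hxb : Ext C b := h3 n C Γ hC g⁻¹ (inv_mem hg) s⁻¹ lb⁻¹ ⊤ b ψb (inv_pos.2 hs) hb
    (fun _ _ _ _ => Submodule.mem_top)
  refine ⟨hT, h5 n C Γ hC 2 le_rfl ![w 0, c, b] hT ?_ ?_⟩
  · intro i
    fin_cases i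
    · exact hx0
    · exact hxc
    · exact hxb
  · intro r hr
    have hWc : ∀ i, (![w 0, c, b] : Fin (2 + 1) → V n) i ∈ closure C := fun i => hT.1.cl i
    have hlp : ∀ i, 0 < (![la / s, lc / s, lb / s] : Fin (2 + 1) → ℝ) i := by
      intro i
      fin_cases i
      · exact div_pos hla hs
      · exact div_pos hlc hs
      · exact div_pos hlb hs
    have hev : ∀ (x : V n) (q : ℝ), s • act g x = q • x → act g x = (q / s) • x := by
      intro x q hq
      have e : s⁻¹ • (s • act g x) = s⁻¹ • (q • x) := by rw [hq]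
      rw [smul_smul, inv_mul_cancel₀ hs.ne', one_smul, smul_smul] at e
      rw [e]
      congr 1
      field_simp
    have he : ∀ i, act g ((![w 0, c, b] : Fin (2 + 1) → V n) i)
        = (![la / s, lc / s, lb / s] : Fin (2 + 1) → ℝ) i
          • (![w 0, c, b] : Fin (2 + 1) → V n) i := by
      intro i
      fin_cases i
      · exact hev _ _ ea
      · exact hev _ _ ec
      · exact hev _ _ eb
    obtain ⟨M, hM⟩ := eig_bd hP g ![w 0, c, b] ![la / s, lc / s, lb / s] hWc hlp he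
    obtain ⟨el1, -, -, el4, -⟩ := Pool.Agent.PFS.H60.elm n C Γ hC (Fin (2 + 1)) ![w 0, c, b] hT
    obtain ⟨φ, γ, t, p, hφ, hγ, hcom, ht, hp, hlim⟩ := h4 n C Γ hC g hg
      (fun m => ∑ i, r m i • (![w 0, c, b] : Fin (2 + 1) → V n) i) M
      (fun m => hT.1.pos (r m) (hr m)) (fun m => el4 (r m) (hr m))
      (fun m => (hM (r m) (hr m)).1) (fun m => (hM (r m) (hr m)).2)
    have hy : ∀ m, IsPES C Γ (fun i => t m • act (γ m) (r (φ m) i
        • (![w 0, c, b] : Fin (2 + 1) → V n) i)) := by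
      intro m
      have q1 := el1 (r (φ m)) (hr (φ m))
      exact (Pool.Agent.PFS.H60.elm n C Γ hC (Fin (2 + 1)) _ q1).2.1 (γ m) (hγ m) (t m) (ht m)
    have hsum : Tendsto (fun m => ∑ i, t m • act (γ m) (r (φ m) i
        • (![w 0, c, b] : Fin (2 + 1) → V n) i)) atTop (𝓝 p) := by
      refine hlim.congr fun m => ?_
      rw [CC.act_sum, Finset.smul_sum]
    obtain ⟨φ', v, hφ', hv, -, hvP⟩ := Pool.Agent.PFS.H37.lpsF n C Γ hC (Fin (2 + 1))
      (by rw [Fintype.card_fin]; norm_num)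
      (fun m i => t m • act (γ m) (r (φ m) i • (![w 0, c, b] : Fin (2 + 1) → V n) i)) p hy hp hsum
    refine ⟨φ ∘ φ', γ ∘ φ', t ∘ φ', v, hφ.comp hφ', fun m => hγ _, fun m => ht _, hvP,
      fun i => hv i, fun m i => ?_⟩
    obtain ⟨q0, q1, q2⟩ := h2 n k C Γ hK w hw g hg s la lc lb c b ψa ψc ψb hs hlb hbc hca hinv
      ha hc hb hcL hbL (γ (φ' m)) (hγ _) (hcom _)
    fin_cases i
    · exact q0
    · exact q1
    · exact q2

end Pool.Agent.VMX.H53
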